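import Pool.Agent.MP_1246c0_nt.H25.SpecA
import Pool.Agent.MP_1246c0_nt.H20.RB

/-! The projection formula for an arbitrary quadratic extension. -/

namespace Pool.Agent.MP_1246c0_nt.H25

open NumberField IsDedekindDomain Pool.Agent.MP_db5b97_nt.H85
open Pool.Agent.MP_1246c0_nt.H12
open scoped Pointwise

namespace RBG

open RB (fib qv_zero_iff f2_eq qv_sq qv_congr root_unit arg tame_eq arg_unit arg_add tame_fin
  val_two val_smul tame_smul fixed invol invol' split_res real_sum)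

variable {F L : Type} [Field F] [NumberField F] [Field L] [NumberField L] [Algebra F L]

theorem lt_inc (w : Sp L) (x : F) :
    w.valuation L (algebraMap F L x) < 1 ↔ (und F w).valuation F x < 1 := by
  rw [NT2.val_inc, pow_lt_one_iff_of_nonneg zero_le (NT2.ram_ne F w)]

theorem eq_inc (w : Sp L) (x : F) :
    w.valuation L (algebraMap F L x) = 1 ↔ (und F w).valuation F x = 1 := by
  rw [NT2.val_inc, pow_eq_one_iff_of_nonneg zero_le (NT2.ram_ne F w)]

theorem qv_inc (w : Sp L) {x : F} (h : qv (und F w) x = 0) : qv w (algebraMap F L x) = 0 := by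
  obtain ⟨z, hz⟩ := (qv_zero_iff _ _).1 h
  refine (qv_zero_iff _ _).2 ⟨algebraMap F L z, ?_⟩
  rwa [← map_pow, ← map_sub, lt_inc]

theorem arg_inc {w : Sp L} (hu : w.asIdeal.ramificationIdx (𝓞 F) = 1) (a b : Un F) :
    arg w (Un.inc F L a) (Un.inc F L b) = algebraMap F L (arg (und F w) a b) := by
  simp only [arg, NT2.ord_inc, hu]
  simp

/-- the residue fields agree -/
theorem qv_res {w : Pr L 2}
    (res : ∀ z : L, w.1.valuation L z ≤ 1 → ∃ y : F, w.1.valuation L (algebraMap F L y - z) < 1)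
    {x : F} (hx : (und F w.1).valuation F x = 1) :
    qv w.1 (algebraMap F L x) = qv (und F w.1) x := by
  refine f2_eq ⟨fun h => ?_, qv_inc w.1⟩
  obtain ⟨z, hz⟩ := (qv_zero_iff _ _).1 h
  have h1 := root_unit w.1 ((eq_inc _ _).2 hx) hz
  obtain ⟨y, hy⟩ := res z h1.le
  refine (qv_zero_iff _ _).2 ⟨y, ?_⟩
  rw [← lt_inc, map_sub, map_pow]
  have e : algebraMap F L x - algebraMap F L y ^ 2 = (algebraMap F L x - z ^ 2) -
      (algebraMap F L y - z) * ((algebraMap F L y - z) + 2 * z) := by ring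
  rw [e]
  refine Valuation.map_sub_lt _ hz ?_
  rw [map_mul]
  refine mul_lt_one_of_lt_of_le hy (Valuation.map_add_le _ hy.le ?_)
  rw [map_mul, val_two, h1, one_mul]

theorem zpow_near (w : Sp L) {x : L} (h : w.valuation L (x - 1) < 1) (n : ℤ) :
    w.valuation L (x ^ n - 1) < 1 := by
  have h1 : w.valuation L x = 1 := by
    simpa using Valuation.map_one_add_of_lt _ h
  have h0 : x ≠ 0 := fun z => by simp [z] at h1
  induction n using Int.induction_on with
  | zero => simp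
  | succ n ih =>
    rw [show x ^ ((n : ℤ) + 1) - 1 = x * (x ^ (n : ℤ) - 1) + (x - 1) by
      rw [zpow_add_one₀ h0]; ring]
    exact Valuation.map_add_lt _ (by rwa [map_mul, h1, one_mul]) h
  | pred n ih =>
    rw [show x ^ (-(n : ℤ) - 1) - 1 = x⁻¹ * (x ^ (-(n : ℤ)) - 1 - (x - 1)) by
      rw [zpow_sub_one₀ h0]; field_simp; ring, map_mul, map_inv₀, h1, inv_one, one_mul]
    exact Valuation.map_sub_lt _ ih h

variable [IsGalois F L] {σ : L ≃ₐ[F] L}

/-- the ramification index -/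
theorem ram (hG : Nat.card (L ≃ₐ[F] L) = 2) (hall : ∀ g : L ≃ₐ[F] L, g = 1 ∨ g = σ) (w : Sp L) :
    (w.asIdeal.ramificationIdx (𝓞 F) = 1 ∧ ∃ θ : 𝓞 L, σ • θ - θ ∉ w.asIdeal) ∨
      (w.asIdeal.ramificationIdx (𝓞 F) = 2 ∧ ∀ θ : 𝓞 L, σ • θ - θ ∈ w.asIdeal) := by
  have : w.asIdeal.LiesOver (und F w).asIdeal := ⟨rfl⟩
  have := w.isPrime
  have := (und F w).isMaximal
  have : Finite (𝓞 F ⧸ (und F w).asIdeal) := Ideal.finiteQuotientOfFreeOfNeBot _ (und F w).ne_bot
  rw [← Ideal.ramificationIdxIn_eq_ramificationIdx (und F w).asIdeal w.asIdeal (L ≃ₐ[F] L),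
    ← Ideal.card_inertia_eq_ramificationIdxIn (G := L ≃ₐ[F] L) (und F w).asIdeal w.asIdeal]
  by_cases h : ∀ θ : 𝓞 L, σ • θ - θ ∈ w.asIdeal
  · refine Or.inr ⟨?_, h⟩
    rw [← hG, Subgroup.card_eq_iff_eq_top, eq_top_iff]
    intro g _
    rcases hall g with rfl | rfl
    · exact one_mem _
    · exact h
  · refine Or.inl ⟨?_, not_forall.1 h⟩
    rw [Subgroup.card_eq_one, eq_bot_iff]
    intro g hg
    rcases hall g with rfl | rfl
    · rfl
    · exact (h hg).elim

/-- At an inert prime the units of the base field are squares. -/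
theorem qv_inert0 (ra : SRA) (hall : ∀ g : L ≃ₐ[F] L, g = 1 ∨ g = σ) {w : Pr L 2} {θ : 𝓞 L}
    (hθ : σ • θ - θ ∉ w.1.asIdeal) (hw : σ • w.1 = w.1) {c : L} (hc : w.1.valuation L c = 1)
    (hf : σ c = c) : qv w.1 c = 0 := by
  obtain ⟨c, rfl⟩ := fixed hall hf
  set t : L := ((σ • θ - θ : 𝓞 L) : L) with ht
  have t1 : w.1.valuation L t = 1 := (val_eq_one_iff _ _).2 hθ
  have t2 : σ t = -t := by
    have : t = σ (θ : L) - θ := rfl
    rw [this, map_sub, invol' hall, neg_sub]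
  obtain ⟨d, hd⟩ := fixed hall (x := t ^ 2) (by rw [map_pow, t2, neg_sq])
  have d1 : (und F w.1).valuation F d = 1 := by rw [← eq_inc, hd, map_pow, t1, one_pow]
  have d2 : qv (und F w.1) d ≠ 0 := by
    intro h
    obtain ⟨z, hz⟩ := (qv_zero_iff _ _).1 h
    rw [← lt_inc, map_sub, map_pow, hd, sq_sub_sq, map_mul] at hz
    have e : w.1.valuation L (t + algebraMap F L z) = w.1.valuation L (t - algebraMap F L z) := by
      rw [← val_smul σ, hw, map_add, t2, σ.commutes, ← Valuation.map_neg]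
      congr 1
      ring
    rw [e, ← sq] at hz
    have h1 : w.1.valuation L (t - algebraMap F L z) < 1 :=
      (pow_lt_one_iff_of_nonneg zero_le two_ne_zero).1 hz
    have h2 := Valuation.map_add_lt _ (e ▸ h1) h1
    rw [add_add_sub_cancel, ← two_mul, map_mul, val_two, t1, one_mul] at h2
    exact lt_irrefl _ h2
  by_cases h : qv (und F w.1) c = 0
  · exact qv_inc w.1 h
  · have h1 := ra.qmul F (w.und F) c d ((eq_inc _ _).1 hc) d1
    have h2 : qv (und F w.1) (c * d) = 0 := by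
      refine h1.trans ?_
      change qv (und F w.1) c + qv (und F w.1) d = 0
      generalize qv (und F w.1) c = p at *
      generalize qv (und F w.1) d = q at *
      revert p q
      decide
    have h3 := qv_inc w.1 h2
    rw [map_mul, hd, ra.qmul L w _ _ hc (by rw [map_pow, t1, one_pow]), qv_sq, add_zero] at h3
    exact h3

theorem qv_inert (ra : SRA) (hall : ∀ g : L ≃ₐ[F] L, g = 1 ∨ g = σ) {w : Pr L 2} {θ : 𝓞 L}
    (hθ : σ • θ - θ ∉ w.1.asIdeal) (hw : σ • w.1 = w.1) {y : L} (hy : w.1.valuation L y = 1)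
    {c : F} (hc : algebraMap F L c = y * σ y) : qv w.1 y = qv (und F w.1) c := by
  have hv : ∀ x, w.1.valuation L (σ x) = w.1.valuation L x := fun x => by
    conv_lhs => rw [← hw]
    exact val_smul σ _ _
  refine f2_eq ⟨fun h => ?_, fun h => ?_⟩
  · obtain ⟨u, hu1⟩ := (qv_zero_iff _ _).1 h
    have u1 := root_unit w.1 hy hu1
    obtain ⟨z, hz⟩ := fixed hall (x := u * σ u) (by rw [map_mul, invol' hall, mul_comm])
    refine (qv_zero_iff _ _).2 ⟨z, ?_⟩
    rw [← lt_inc, map_sub, map_pow, hc, hz]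
    have e : y * σ y - (u * σ u) ^ 2 = y * σ (y - u ^ 2) + (y - u ^ 2) * σ u ^ 2 := by
      rw [map_sub, map_pow]; ring
    rw [e]
    refine Valuation.map_add_lt _ ?_ ?_
    · rwa [map_mul, hy, one_mul, hv]
    · rwa [map_mul, map_pow, hv, u1, one_pow, mul_one]
  · obtain ⟨z, hz⟩ := (qv_zero_iff _ _).1 h
    rw [← lt_inc, map_sub, map_pow, hc] at hz
    set ζ := algebraMap F L z with hζ
    have z1 : w.1.valuation L ζ = 1 := root_unit w.1 (by rw [map_mul, hv, hy, one_mul]) hz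
    have z2 : σ ζ = ζ := σ.commutes z
    rcases (Valuation.map_add_le _ hy.le z1.le).lt_or_eq with h1 | h1
    · rw [qv_congr w.1 (y := -ζ) (by rwa [sub_neg_eq_add])]
      exact qv_inert0 ra hall hθ hw (by rwa [Valuation.map_neg]) (by rw [map_neg, z2])
    · have n1 : w.1.valuation L ((y + ζ) * σ (y + ζ)) = 1 := by rw [map_mul, hv, h1, one_mul]
      have n2 := qv_inert0 ra hall hθ hw n1 (by rw [map_mul, invol' hall, mul_comm])
      have n3 := ra.qmul L w _ _ hy n1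
      have n4 := ra.qmul L w ζ ((y + ζ) ^ 2) z1 (by rw [map_pow, h1, one_pow])
      rw [qv_sq, qv_inert0 ra hall hθ hw z1 z2, add_zero] at n4
      rw [n2, add_zero, qv_congr w.1 (y := ζ * (y + ζ) ^ 2), n4] at n3
      · exact n3.symm
      · have e : y * ((y + ζ) * σ (y + ζ)) - ζ * (y + ζ) ^ 2 = (y + ζ) * (y * σ y - ζ ^ 2) := by
          rw [map_add, z2]; ring
        rwa [e, map_mul, h1, one_mul]

theorem tame_split (ra : SRA) (hall : ∀ g : L ≃ₐ[F] L, g = 1 ∨ g = σ) {w : Pr L 2}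
    (hu : w.1.asIdeal.ramificationIdx (𝓞 F) = 1) (hw : σ • w.1 ≠ w.1) (a c : Un F) (b : Un L)
    (hc : Un.inc F L c = b + σ • b) :
    tame w.1 (Un.inc F L a) b + tame (σ • w.1) (Un.inc F L a) b = tame (und F w.1) a c := by
  have h1 := tame_smul σ w.1 (Un.inc F L a) (σ • b)
  rw [smul_smul, invol hall, one_smul, show σ • Un.inc F L a = Un.inc F L a from
    Un.ext (σ.commutes _)] at h1
  rw [h1, tame_eq, tame_eq, ← ra.qmul L w _ _ (arg_unit _ _ _) (arg_unit _ _ _), ← arg_add, ← hc,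
    arg_inc hu, qv_res (fun _ => split_res hall hw) (arg_unit _ _ _), tame_eq]

omit [NumberField F] [IsGalois F L] in
theorem ord_fix {w : Sp L} (hw : σ • w = w) (b : Un L) : ord w (σ • b) = ord w b := by
  conv_lhs => rw [← hw]
  exact NT2.ord_smul _ _ _ _ _

theorem tame_inert (ra : SRA) (hall : ∀ g : L ≃ₐ[F] L, g = 1 ∨ g = σ) {w : Pr L 2} {θ : 𝓞 L}
    (hu : w.1.asIdeal.ramificationIdx (𝓞 F) = 1) (hθ : σ • θ - θ ∉ w.1.asIdeal)
    (hw : σ • w.1 = w.1) (a c : Un F) (b : Un L) (hc : Un.inc F L c = b + σ • b) :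
    tame w.1 (Un.inc F L a) b = tame (und F w.1) a c := by
  rw [tame_eq, tame_eq]
  refine qv_inert ra hall hθ hw (arg_unit _ _ _) ?_
  rw [← arg_inc hu, hc, arg_add]
  congr 1
  simp only [arg, ord_fix hw]
  simp [AlgEquiv.smul_def]

omit [NumberField F] [NumberField L] [IsGalois F L] in
theorem ram_fix (hall : ∀ g : L ≃ₐ[F] L, g = 1 ∨ g = σ) {w : Sp L}
    (h : ∀ θ : 𝓞 L, σ • θ - θ ∈ w.asIdeal) : σ • w = w := by
  ext x
  rw [mem_smul_iff, inv_eq_of_mul_eq_one_right (invol hall)]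
  exact (Submodule.sub_mem_iff_left _ · |>.1 (h x)) |> fun k =>
    ⟨fun a => (Submodule.sub_mem_iff_right _ a).1 (h x), k⟩

omit [NumberField F] [IsGalois F L] in
theorem ram_near (hall : ∀ g : L ≃ₐ[F] L, g = 1 ∨ g = σ) {w : Sp L}
    (h : ∀ θ : 𝓞 L, σ • θ - θ ∈ w.asIdeal) {z : L} (hz : w.valuation L z ≤ 1) :
    w.valuation L (σ z - z) < 1 := by
  obtain ⟨a, ha⟩ := w.exists_valuation_sub_lt_of_integer hz 1
  have ha' : w.valuation L ((a : L) - z) < 1 := by simpa using ha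
  have h1 : w.valuation L (σ ((a : L) - z)) < 1 := by
    rw [← ram_fix hall h, val_smul]
    exact ha'
  have h2 : w.valuation L (σ (a : L) - a) < 1 := (val_lt_one_iff w _).2 (h a)
  rw [show σ z - z = σ (a : L) - a - σ ((a : L) - z) + (a - z) by rw [map_sub]; ring]
  exact Valuation.map_add_lt _ (Valuation.map_sub_lt _ h2 h1) ha'

omit [IsGalois F L] in
/-- a uniformizer that changes sign -/
theorem ram_unif (hσ : σ ≠ 1) (hall : ∀ g : L ≃ₐ[F] L, g = 1 ∨ g = σ) {w : Pr L 2}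
    (hu : w.1.asIdeal.ramificationIdx (𝓞 F) = 2) (h : ∀ θ : 𝓞 L, σ • θ - θ ∈ w.1.asIdeal) :
    ∃ s : Un L, ord w.1 s = 1 ∧ σ s.val = -s.val := by
  obtain ⟨x, hx⟩ : ∃ x, σ x - x ≠ 0 := by
    by_contra c
    push Not at c
    exact hσ (AlgEquiv.ext fun x => sub_eq_zero.1 (c x))
  obtain ⟨p, hp⟩ := (und F w.1).valuation_exists_uniformizer F
  have p0 : p ≠ 0 := fun z => by
    rw [z, map_zero] at hp
    exact WithZero.exp_ne_zero hp.symm
  have p1 : ord w.1 (Un.inc F L (Un.mk p p0)) = 2 := by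
    rw [NT2.ord_inc, hu, ord_apply, Un.val_mk, hp]
    simp
  have k : ∀ m : ℤ, σ (Un.mk _ hx - m • Un.inc F L (Un.mk p p0)).val =
      -(Un.mk _ hx - m • Un.inc F L (Un.mk p p0)).val := fun m => by
    rw [Un.val_sub, Un.val_zsmul, Un.val_inc, Un.val_mk, map_div₀, map_zpow₀, σ.commutes, map_sub,
      invol' hall, ← neg_div, neg_sub]
  obtain ⟨m, e | e⟩ := Int.even_or_odd' (ord w.1 (Un.mk _ hx))
  · have h1 := (ord_eq_zero_iff w.1 (Un.mk _ hx - m • Un.inc F L (Un.mk p p0))).1 (by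
      rw [map_sub, map_zsmul, p1, e, smul_eq_mul, mul_comm, sub_self])
    have h2 := ram_near hall h h1.le
    rw [k, ← neg_add', Valuation.map_neg, ← two_mul, map_mul, val_two, h1, one_mul] at h2
    exact (lt_irrefl _ h2).elim
  · exact ⟨_, by rw [map_sub, map_zsmul, p1, e, smul_eq_mul]; ring, k m⟩

theorem tame_ram (hσ : σ ≠ 1) (hall : ∀ g : L ≃ₐ[F] L, g = 1 ∨ g = σ) {w : Pr L 2}
    (hu : w.1.asIdeal.ramificationIdx (𝓞 F) = 2) (h : ∀ θ : 𝓞 L, σ • θ - θ ∈ w.1.asIdeal)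
    (a c : Un F) (b : Un L) (hc : Un.inc F L c = b + σ • b) :
    tame w.1 (Un.inc F L a) b = tame (und F w.1) a c := by
  have res : ∀ z : L, w.1.valuation L z ≤ 1 →
      ∃ y : F, w.1.valuation L (algebraMap F L y - z) < 1 := fun z hz => by
    obtain ⟨y, hy⟩ := fixed hall (x := (z + σ z) / 2)
      (by rw [map_div₀, map_add, invol' hall, add_comm, map_ofNat])
    refine ⟨y, ?_⟩
    rw [hy, show (z + σ z) / 2 - z = (σ z - z) / 2 by ring, map_div₀, val_two, div_one]
    exact ram_near hall h hz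
  obtain ⟨s, s1, s2⟩ := ram_unif hσ hall hu h
  have o1 : ord (und F w.1) c = ord w.1 b := by
    have := congrArg (ord w.1) hc
    rw [NT2.ord_inc, hu, map_add, ord_fix (ram_fix hall h)] at this
    omega
  have o2 : ord w.1 (Un.inc F L a) = 2 * ord (und F w.1) a := by
    rw [NT2.ord_inc, hu, Nat.cast_ofNat]
  have u1 := (ord_eq_zero_iff w.1 (b - ord w.1 b • s)).1 (by
    rw [map_sub, map_zsmul, s1, smul_eq_mul, mul_one, sub_self])
  have u2 : w.1.valuation L (σ (b - ord w.1 b • s).val / (b - ord w.1 b • s).val - 1) < 1 := by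
    rw [div_sub_one (Un.val_ne _), map_div₀, u1, div_one]
    exact ram_near hall h u1.le
  have e : arg w.1 (Un.inc F L a) b = algebraMap F L (arg (und F w.1) a c) *
      (σ (b - ord w.1 b • s).val / (b - ord w.1 b • s).val) ^ ord (und F w.1) a := by
    have c1 : algebraMap F L c.val = b.val * σ b.val := congrArg Un.val hc
    have b1 : σ b.val ≠ 0 := by simp
    have n1 : (-1 : L) ≠ 0 := by norm_num
    simp only [arg, o1, o2, Un.val_sub, Un.val_zsmul, Un.val_inc, map_mul, map_div₀, map_zpow₀,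
      map_neg, map_one, c1, s2]
    generalize ord w.1 b = β
    generalize ord (und F w.1) a = α
    rw [neg_eq_neg_one_mul s.val, mul_assoc (2 : ℤ), Even.neg_one_zpow (even_two_mul _), two_mul α,
      zpow_add₀ b.val_ne, mul_comm α β, zpow_mul]
    simp only [mul_zpow, div_zpow]
    have := zpow_ne_zero α (zpow_ne_zero β n1)
    have := zpow_ne_zero α (zpow_ne_zero β s.val_ne)
    have := zpow_ne_zero α b.val_ne
    have := zpow_ne_zero α b1
    field_simp
  rw [tame_eq, tame_eq, ← qv_res res (arg_unit _ _ _), e]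
  refine qv_congr _ ?_
  rw [← mul_sub_one, map_mul, (eq_inc _ _).2 (arg_unit _ _ _), one_mul]
  exact zpow_near _ u2 _

theorem tame_sum (ra : SRA) (hG : Nat.card (L ≃ₐ[F] L) = 2) (hσ : σ ≠ 1)
    (hall : ∀ g : L ≃ₐ[F] L, g = 1 ∨ g = σ) (a c : Un F) (b : Un L)
    (hc : Un.inc F L c = b + σ • b) :
    ∑ᶠ w : Pr L 2, tame w.1 (Un.inc F L a) b = ∑ᶠ v : Pr F 2, tame v.1 a c := by
  refine fib (fun w : Pr L 2 => w.und F) (fun w => σ • w) _ _ (fun v => ?_) (fun w => ?_)
    (fun w w' h => ?_) (tame_fin _ _) (fun w h => ?_) fun w h => ?_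
  · obtain ⟨w, hw⟩ := NT2.und_surj F L v.1
    exact ⟨⟨w, fun h => v.2 (hw ▸ (NT2.nat_mem F 2 w).2 h)⟩, Subtype.ext hw⟩
  · exact Subtype.ext (HeightOneSpectrum.ext (Ideal.under_smul (𝓞 F) w.1.asIdeal σ))
  · have h1 := w.1.isPrime
    have h2 := w'.1.isPrime
    obtain ⟨s, hs⟩ := Algebra.IsInvariant.exists_smul_of_under_eq (𝓞 F) (𝓞 L) (L ≃ₐ[F] L)
      w.1.asIdeal w'.1.asIdeal (congrArg (fun v : Pr F 2 => v.1.asIdeal) h)
    have e : w' = s • w := Subtype.ext (HeightOneSpectrum.ext hs)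
    rcases hall s with rfl | rfl
    · exact Or.inl (e.trans (one_smul _ _))
    · exact Or.inr e
  · rcases ram hG hall w.1 with ⟨hu, θ, hθ⟩ | ⟨hu, hθ⟩
    · exact tame_inert ra hall hu hθ (congrArg Subtype.val h) a c b hc
    · exact tame_ram hσ hall hu hθ a c b hc
  · rcases ram hG hall w.1 with ⟨hu, -⟩ | ⟨-, hθ⟩
    · exact tame_split ra hall hu (fun h' => h (Subtype.ext h')) a c b hc
    · exact (h (Subtype.ext (ram_fix hall hθ))).elim

end RBG

theorem rowRBG : OfRBG := by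
  intro ra F L _ _ _ _ _ h2 hr a b
  have : Algebra.IsQuadraticExtension F L := ⟨h2⟩
  have hG : Nat.card (L ≃ₐ[F] L) = 2 := (IsGalois.card_aut_eq_finrank F L).trans h2
  obtain ⟨σ, hσ, hall⟩ := (Nat.card_eq_two_iff' (1 : L ≃ₐ[F] L)).1 hG
  have hall' : ∀ g : L ≃ₐ[F] L, g = 1 ∨ g = σ := fun g => or_iff_not_imp_left.2 (hall g)
  have hc : Un.inc F L (Un.nrm F L b) = b + σ • b := by
    rw [NT2.inc_nrm F L _ σ 2 Nat.prime_two hG hσ, Nm_apply]
    simp [Finset.sum_range_succ]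
  unfold dy
  rw [RBG.tame_sum ra hG hσ hall' a _ b hc]
  congr 1
  exact RB.real_sum hσ hall' a.val _ b.val_ne (congrArg Un.val hc)

end Pool.Agent.MP_1246c0_nt.H25
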