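import Pool.Agent.MP_1246c0_nt.H12.SpecN

/-! Every integer is counted with weight at most one. -/

namespace Pool.Agent.MP_1246c0_nt.H12

open Finset

namespace F2

theorem le_of {α : Type} {s t : Finset α} {f g : α → ℝ} (hg : ∀ x ∈ t, 0 ≤ g x)
    (h : ∀ x ∈ s, f x ≠ 0 → x ∈ t ∧ f x ≤ g x) : ∑ x ∈ s, f x ≤ ∑ x ∈ t, g x := by
  classical
  rw [← sum_filter_ne_zero]
  exact (sum_le_sum fun x hx => (h x (mem_filter.1 hx).1 (mem_filter.1 hx).2).2).trans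
    (sum_le_sum_of_subset_of_nonneg (fun x hx => (h x (mem_filter.1 hx).1 (mem_filter.1 hx).2).1)
      fun x hx _ => hg x hx)

theorem ind_nonneg (p : Prop) : 0 ≤ ind p := by
  unfold ind
  split_ifs <;> norm_num

theorem mem_OP {X p : ℕ} : p ∈ OP X ↔ p ≤ X ∧ p.Prime ∧ p ≠ 2 := by
  simp [OP]

theorem TS_congr {m T : ℕ} {w w' : ℕ → ℝ} {Ψ Ψ' : (Fin m → ℕ) → ℕ → ℝ}
    (h : ∀ p P, Function.Injective p → Ψ p P = Ψ' p P) : TS m T w w' Ψ = TS m T w w' Ψ' :=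
  sum_congr rfl fun _ _ => if_ctx_congr Iff.rfl
    (fun k => congrArg _ (h _ _ (k.1.comp (Option.some_injective _)))) fun _ => rfl

/-- The condition on the large prime. -/
def Cd (X : ℕ) (Q : ℕ → Prop) (S : Finset ℕ) (P : ℕ) : Prop :=
  P ∉ S ∧ X < P ^ 2 ∧ P * ∏ p ∈ S, p ≤ X ∧ Q (P * ∏ p ∈ S, p)

theorem count (X : ℕ) (Q : ℕ → Prop) : ∑ S ∈ (OP X).powerset, ∑ P ∈ OP X, ind (Cd X Q S P) ≤
    ({d : ℕ | d ≤ X ∧ Squarefree d ∧ Q d}.ncard : ℝ) := by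
  classical
  rw [← sum_product']
  simp only [ind, sum_boole, Nat.cast_le]
  rw [← Set.ncard_coe_finset]
  refine Set.ncard_le_ncard_of_injOn (fun x => x.2 * ∏ p ∈ x.1, p) (fun x hx => ?_)
    (fun x hx y hy e => ?_) ((Set.finite_le_nat X).subset fun _ h => h.1)
  · simp only [coe_filter, mem_product, mem_powerset, Set.mem_ofPred_eq] at hx
    obtain ⟨⟨h1, h2⟩, h3, -, h4, h5⟩ := hx
    have k : ∀ p ∈ insert x.2 x.1, p.Prime := fun p hp =>
      (mem_OP.1 (insert_subset h2 h1 hp)).2.1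
    refine ⟨h4, ?_, h5⟩
    rw [← prod_insert (f := fun p => p) h3]
    exact squarefree_prod_of_pairwise_isCoprime (fun p hp q hq n => Nat.coprime_iff_isRelPrime.1
      ((Nat.coprime_primes (k p hp) (k q hq)).2 n)) fun p hp => (k p hp).prime.squarefree
  · simp only [coe_filter, mem_product, mem_powerset, Set.mem_ofPred_eq] at hx hy e
    obtain ⟨⟨h1, h2⟩, -, h3, h4, -⟩ := hx
    obtain ⟨⟨k1, k2⟩, -, k3, -⟩ := hy
    have p1 := (mem_OP.1 h2).2.1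
    have p2 := (mem_OP.1 k2).2.1
    have q1 : ∀ p ∈ x.1, p.Prime := fun p hp => (mem_OP.1 (h1 hp)).2.1
    have e1 : x.2 = y.2 := by
      by_contra n
      have := (Nat.le_of_dvd (mul_pos p1.pos (prod_pos fun p hp => (q1 p hp).pos))
        (((Nat.coprime_primes p1 p2).2 n).mul_dvd_of_dvd_of_dvd (dvd_mul_right _ _)
          (e ▸ dvd_mul_right _ _))).trans h4
      rcases le_total x.2 y.2 with l | l <;> nlinarith
    rw [e1, mul_right_inj' p2.ne_zero] at e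
    refine Prod.ext ?_ e1
    rw [← Nat.primeFactors_prod q1, e, Nat.primeFactors_prod fun p hp => (mem_OP.1 (k1 hp)).2.1]

theorem regroup (U : Finset ℕ) (a b : ℕ → ℝ) (K : Finset ℕ → ℝ) :
    ∑ Sg ∈ U.powerset, (∏ p ∈ Sg, a p) * ∑ B ∈ (U \ Sg).powerset, (∏ p ∈ B, b p) * K (Sg ∪ B) =
      ∑ S ∈ U.powerset, (∏ p ∈ S, (a p + b p)) * K S := by
  simp only [prod_add, mul_sum, sum_mul, sum_sigma']
  refine sum_bij' (fun x _ => ⟨x.1 ∪ x.2, x.1⟩) (fun x _ => ⟨x.2, x.1 \ x.2⟩) ?_ ?_ ?_ ?_ ?_ <;>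
    simp only [mem_sigma, mem_powerset, subset_sdiff] <;> rintro ⟨S, B⟩ h
  · exact ⟨union_subset h.1 h.2.1, subset_union_left⟩
  · exact ⟨h.2.trans h.1, sdiff_subset.trans h.1, sdiff_disjoint⟩
  · rw [union_sdiff_cancel_left h.2.2.symm]
  · rw [union_sdiff_of_subset h.2]
  · rw [union_sdiff_cancel_left h.2.2.symm, mul_assoc]

theorem one {X : ℕ} {b : ℕ → ℝ} (Q : ℕ → Prop) (hb : ∀ p ∈ OP X, 0 ≤ b p) {Sg : Finset ℕ}
    (hS : Sg ⊆ OP X) (M : Finset ℕ) :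
    ∑ m ∈ M, ∑ B ∈ powersetCard m (range (X / (∏ p ∈ Sg, p) + 1)),
      ∑ P ∈ range (X / (∏ p ∈ Sg, p) + 1),
        (if P ∉ B ∧ (∏ p ∈ B, p) * P ≤ X / ∏ p ∈ Sg, p then (∏ p ∈ B, wr Sg b p) * wr Sg (wP X) P *
          ind (Q (P * ((∏ p ∈ Sg, p) * ∏ p ∈ B, p))) else 0) ≤
      ∑ B ∈ (OP X \ Sg).powerset, (∏ p ∈ B, b p) * ∑ P ∈ OP X, ind (Cd X Q (Sg ∪ B) P) := by
  have r : ∀ p ∈ range (X / (∏ p ∈ Sg, p) + 1), p ≤ X := fun p hp =>
    (Nat.lt_succ_iff.1 (mem_range.1 hp)).trans (Nat.div_le_self _ _)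
  have w : ∀ (f : ℕ → ℝ) p, p ≤ X → wr Sg f p ≠ 0 → (p ∈ OP X ∧ p ∉ Sg) ∧ wr Sg f p = f p :=
    fun f p hp h => by
      have k := (ite_ne_right_iff.1 h).1
      exact ⟨⟨mem_OP.2 ⟨hp, k.1, k.2.1⟩, k.2.2⟩, if_pos k⟩
  have w0 : ∀ p ≤ X, 0 ≤ wr Sg b p := fun p hp => by
    by_cases h : wr Sg b p = 0
    · exact h.ge
    · exact (w b p hp h).2 ▸ hb p (w b p hp h).1.1
  have w1 : ∀ p, 0 ≤ wr Sg (wP X) p := fun p => by
    unfold wr wP
    split_ifs <;> norm_num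
  have n0 : ∀ B ∈ (OP X \ Sg).powerset, 0 ≤ ∏ p ∈ B, b p := fun B hB =>
    prod_nonneg fun p hp => hb p (mem_sdiff.1 (mem_powerset.1 hB hp)).1
  simp only [powersetCard_eq_filter]
  refine (sum_fiberwise_le_sum_of_sum_fiber_nonneg fun m _ => sum_nonneg fun B hB =>
    sum_nonneg fun P _ => ite_nonneg (mul_nonneg (mul_nonneg (prod_nonneg fun p hp => w0 p
      (r p (mem_powerset.1 (mem_filter.1 hB).1 hp))) (w1 P)) (ind_nonneg _)) le_rfl).trans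
    (le_of (fun B hB => mul_nonneg (n0 B hB) (sum_nonneg fun _ _ => ind_nonneg _))
      fun B hB h => ?_)
  obtain ⟨P₀, -, h⟩ := exists_ne_zero_of_sum_ne_zero h
  have k := fun p hp => w b p (r p (mem_powerset.1 hB hp)) (prod_ne_zero_iff.1
    (left_ne_zero_of_mul (left_ne_zero_of_mul (ite_ne_right_iff.1 h).2)) p hp)
  have m : B ∈ (OP X \ Sg).powerset := mem_powerset.2 fun p hp => mem_sdiff.2 (k p hp).1
  refine ⟨m, ?_⟩
  rw [mul_sum, prod_congr rfl fun p hp => (k p hp).2]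
  refine le_of (fun _ _ => mul_nonneg (n0 B m) (ind_nonneg _)) fun P hP h => ?_
  obtain ⟨⟨h1, h2⟩, h3⟩ := ite_ne_right_iff.1 h
  have h4 := right_ne_zero_of_mul (left_ne_zero_of_mul h3)
  obtain ⟨⟨h5, h6⟩, h7⟩ := w _ P (r P hP) h4
  rw [h7] at h4
  have h8 := (ite_ne_right_iff.1 h4).1
  have h9 := (@ite_ne_right_iff _ _ (_) _ _).1 (right_ne_zero_of_mul h3)
  have e : ∏ p ∈ Sg ∪ B, p = (∏ p ∈ Sg, p) * ∏ p ∈ B, p :=
    prod_union (subset_sdiff.1 (mem_powerset.1 m)).2.symm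
  refine ⟨h5, ?_⟩
  rw [if_pos ⟨h1, h2⟩, h7, wP, if_pos h8, mul_one, ind, ind, if_pos h9.1, if_pos]
  refine ⟨fun h => (mem_union.1 h).elim h6 h1, h8.2, ?_, e ▸ h9.1⟩
  rw [Nat.le_div_iff_mul_le (prod_pos fun p hp => (mem_OP.1 (hS hp)).2.1.pos)] at h2
  rw [e]
  linarith

end F2

open F2 in
theorem rowF2 : OfF2 := by
  intro hC X z m0 a b Q h
  refine le_trans ?_ ((sum_le_sum fun S hS => mul_le_of_le_one_left
    (sum_nonneg fun _ _ => ind_nonneg _) (prod_le_one (f := fun p => a p + b p)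
      (fun p hp => add_nonneg (h p (mem_powerset.1 hS hp)).1 (h p (mem_powerset.1 hS hp)).2.1)
      fun p hp => (h p (mem_powerset.1 hS hp)).2.2)).trans (count X Q))
  have a0 : ∀ S ∈ (OP X).powerset, 0 ≤ ∏ p ∈ S, a p := fun S hS =>
    prod_nonneg fun p hp => (h p (mem_powerset.1 hS hp)).1
  rw [← regroup]
  refine le_of (fun S hS => mul_nonneg (a0 S hS) (sum_nonneg fun B hB => mul_nonneg (prod_nonneg
    fun p hp => (h p (mem_sdiff.1 (mem_powerset.1 hB hp)).1).2.1)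
      (sum_nonneg fun _ _ => ind_nonneg _))) fun S hS _ => ?_
  have k := (mem_filter.1 hS).1
  refine ⟨k, mul_le_mul_of_nonneg_left (le_trans (sum_congr rfl fun m _ => ?_).le
    (one Q (fun p hp => (h p hp).2.1) (mem_powerset.1 k) (range (m0 + 1)))) (a0 S k)⟩
  rw [TS_congr (Ψ' := fun p P => ind (Q (P * ((∏ p ∈ S, p) * ∏ l ∈ univ.image p, l))))
    fun p P hp => by simp [prs, prod_image hp.injOn, prod_attach S fun p => p],
    hC.tsb m _ _ _ (fun B P => ind (Q (P * ((∏ p ∈ S, p) * ∏ l ∈ B, l))))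
      (if_neg fun k => Nat.not_prime_zero k.1) (if_neg fun k => Nat.not_prime_zero k.1), one_div,
    inv_mul_cancel_left₀ (by positivity)]

end Pool.Agent.MP_1246c0_nt.H12
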